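import Pool.Agent.H72N.RichC
import Pool.Agent.TFG.Win

/-! LAB, piece (A): the pendant hubs `t x` and the links inside `SS`. -/

set_option autoImplicit false

namespace Pool.Agent.H45L

open List Pool.Agent.TF82 Pool.Agent.TFC Pool.Agent.TFB Pool.Agent.TFN Pool.Agent.TFG
  Pool.Agent.EG31 Pool.Agent.H18C Pool.Agent.H62P Pool.Agent.H72N

universe u

set_option linter.unusedSectionVars false
set_option linter.unusedVariables false

variable {V : Type u} [DecidableEq V]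

/-- `u` is adjacent to two vertices of `Z` in different clusters -/
def Ri (G : SimpleGraph V) (Z S' : Finset V) (u : V) : Prop :=
  ∃ x ∈ Z, ∃ x' ∈ Z, G.Adj u x ∧ G.Adj u x' ∧ ¬ Near G Z S' x x'

/-- `x` is the only neighbour of `u` in `Z` -/
def Pd (G : SimpleGraph V) (Z : Finset V) (u x : V) : Prop :=
  G.Adj u x ∧ ∀ x' ∈ Z, G.Adj u x' → x' = x

theorem comp_con [Fintype V] {G : SimpleGraph V} {F : List (List V)} {y : V} (hy : y ∈ unc F) :
    Conn1 G (comp G F y) := by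
  have key : ∀ c, Reach G (unc F) y c → Reach G (comp G F y) y c := by
    intro c hc
    induction hc with
    | refl => exact Relation.ReflTransGen.refl
    | @tail b c hab hbc ih =>
      exact Relation.ReflTransGen.tail ih ⟨mem_comp.2 ⟨hbc.1, hab⟩,
        mem_comp.2 ⟨hbc.2.1, Relation.ReflTransGen.tail hab hbc⟩, hbc.2.2⟩
  intro c hc d hd
  exact Relation.ReflTransGen.trans (Reach.symm (key c (mem_comp.1 hc).2)) (key d (mem_comp.1 hd).2)

/-- the pendant hub with the smallest run at every vertex of `X` -/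
theorem tx_exists [Fintype V] {G : SimpleGraph V} {F : List (List V)} {Z : Finset V}
    (X : Finset V) (g : V → ℕ) (hX : ∀ x ∈ X, ∃ u ∈ F.flatten, Pd G Z u x) :
    ∃ t : V → V, ∀ x ∈ X, t x ∈ F.flatten ∧ Pd G Z (t x) x ∧
      ∀ u ∈ F.flatten, Pd G Z u x → g (t x) ≤ g u := by
  classical
  have key : ∀ x : V, ∃ u : V, x ∈ X → u ∈ F.flatten ∧ Pd G Z u x ∧
      ∀ u' ∈ F.flatten, Pd G Z u' x → g u ≤ g u' := by
    intro x
    by_cases hx : x ∈ X
    · obtain ⟨u, hu, hu'⟩ := hX x hx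
      have hne : (F.flatten.toFinset.filter (fun u => Pd G Z u x)).Nonempty :=
        ⟨u, Finset.mem_filter.2 ⟨List.mem_toFinset.2 hu, hu'⟩⟩
      obtain ⟨v, hv, hv'⟩ := Finset.exists_min_image _ g hne
      rw [Finset.mem_filter, List.mem_toFinset] at hv
      exact ⟨v, fun _ => ⟨hv.1, hv.2, fun u' h1 h2 =>
        hv' u' (Finset.mem_filter.2 ⟨List.mem_toFinset.2 h1, h2⟩)⟩⟩
    · exact ⟨x, fun h => absurd h hx⟩
  choose t ht using key
  exact ⟨t, fun x hx => ht x hx⟩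

open Classical in
/-- rich hubs and one pendant hub for every vertex of `X` -/
noncomputable def SS [Fintype V] (G : SimpleGraph V) (F : List (List V)) (y : V)
    (S' X : Finset V) (t : V → V) : Finset V :=
  (att G F y).filter (fun s => Ri G (comp G F y) S' s ∨ ∃ x ∈ X, s = t x)

open Classical in
theorem mem_SS [Fintype V] {G : SimpleGraph V} {F : List (List V)} {y : V}
    {S' X : Finset V} {t : V → V} {s : V} :
    s ∈ SS G F y S' X t ↔ s ∈ att G F y ∧ (Ri G (comp G F y) S' s ∨ ∃ x ∈ X, s = t x) := by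
  unfold SS
  rw [Finset.mem_filter]

theorem SS_flat [Fintype V] {G : SimpleGraph V} {F : List (List V)} {y : V}
    {S' X : Finset V} {t : V → V} {s : V} (h : s ∈ SS G F y S' X t) : s ∈ F.flatten :=
  (mem_att.1 (mem_SS.1 h).1).1

theorem tx_mem_SS [Fintype V] {G : SimpleGraph V} {F : List (List V)} {y : V}
    {S' X : Finset V} {t : V → V} {x : V} (hx : x ∈ X) (hxZ : x ∈ comp G F y)
    (h1 : t x ∈ F.flatten) (h2 : G.Adj (t x) x) : t x ∈ SS G F y S' X t :=
  mem_SS.2 ⟨mem_att.2 ⟨h1, x, (mem_comp.1 hxZ).2, h2⟩, Or.inr ⟨x, hx, rfl⟩⟩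

theorem rich_mem_SS [Fintype V] {G : SimpleGraph V} {F : List (List V)} {y : V}
    {S' X : Finset V} {t : V → V} {s : V} (h1 : s ∈ F.flatten)
    (h2 : Ri G (comp G F y) S' s) : s ∈ SS G F y S' X t := by
  refine mem_SS.2 ⟨?_, Or.inl h2⟩
  obtain ⟨x, hx, -, -, h3, -, -⟩ := h2
  exact mem_att.2 ⟨h1, x, (mem_comp.1 hx).2, h3⟩

/-- a rich hub is linked to every hub of the component -/
theorem ri_link [Fintype V] {G : SimpleGraph V} {F : List (List V)} {y : V} (hy : y ∈ unc F)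
    {S' : Finset V} {lam : ℕ}
    (hL : ∀ x ∈ comp G F y, ∀ x' ∈ comp G F y, ¬ Near G (comp G F y) S' x x' →
      ∃ Q, TFC.Seg G Q x x' ∧ Q.Nodup ∧ (∀ z ∈ Q, z ∈ comp G F y) ∧ lam ≤ Q.length)
    {s s' : V} (hs : Ri G (comp G F y) S' s) (hs' : s' ∈ att G F y) : Link G F y lam s s' := by
  obtain ⟨x, hx, x', hx', h1, h2, h3⟩ := hs
  obtain ⟨-, q, hq, hsq⟩ := mem_att.1 hs'
  have hq' : q ∈ comp G F y := mem_comp.2 ⟨reach_unc hy hq, hq⟩
  rcases near_or (comp_con hy) hq' h3 with h | h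
  · obtain ⟨Q, g1, g2, g3, g4⟩ := hL x hx q hq' (fun hn => h (near_symm hn))
    exact ⟨Q, x, q, g1, g2, g3, g4, h1, hsq⟩
  · obtain ⟨Q, g1, g2, g3, g4⟩ := hL x' hx' q hq' (fun hn => h (near_symm hn))
    exact ⟨Q, x', q, g1, g2, g3, g4, h2, hsq⟩

/-- the elements of `SS` are pairwise linked -/
theorem ss_link [Fintype V] {G : SimpleGraph V} {F : List (List V)} {y : V} (hy : y ∈ unc F)
    {S' X : Finset V} {lam : ℕ}
    (hL : ∀ x ∈ comp G F y, ∀ x' ∈ comp G F y, ¬ Near G (comp G F y) S' x x' →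
      ∃ Q, TFC.Seg G Q x x' ∧ Q.Nodup ∧ (∀ z ∈ Q, z ∈ comp G F y) ∧ lam ≤ Q.length)
    (hXZ : X ⊆ comp G F y)
    (hN4 : ∀ x ∈ X, ∀ x' ∈ comp G F y, x' ≠ x → ¬ Near G (comp G F y) S' x x')
    {t : V → V} (ht : ∀ x ∈ X, G.Adj (t x) x) :
    ∀ s ∈ SS G F y S' X t, ∀ s' ∈ SS G F y S' X t, s ≠ s' → Link G F y lam s s' := by
  intro s hs s' hs' hne
  obtain ⟨h1, h2⟩ := mem_SS.1 hs
  obtain ⟨h1', h2'⟩ := mem_SS.1 hs'
  rcases h2 with h2 | ⟨x, hx, rfl⟩
  · exact ri_link hy hL h2 h1'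
  rcases h2' with h2' | ⟨x', hx', rfl⟩
  · exact (ri_link hy hL h2' h1).symm
  have hxx : x' ≠ x := fun h => hne (by rw [h])
  obtain ⟨Q, g1, g2, g3, g4⟩ := hL x (hXZ hx) x' (hXZ hx') (hN4 x hx x' (hXZ hx') hxx)
  exact ⟨Q, x, x', g1, g2, g3, g4, ht x hx, ht x' hx'⟩

/-- a hub of a good vertex is rich, if the unclean vertices that are no cut vertices are in `X` -/
theorem good_ri [Fintype V] {G : SimpleGraph V} [DecidableRel G.Adj] {F : List (List V)} {y : V}
    (hy : y ∈ unc F) {S' : Finset V} (hS : S' ⊆ comp G F y) (hC : CWg G (comp G F y) S' 0)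
    (hX : ∀ x ∈ comp G F y, x ∉ S' → Conn1 G ((comp G F y).erase x) →
      ¬ ∃ u ∈ F.flatten, Pd G (comp G F y) u x)
    {v s : V} (hv : Good G (comp G F y) S' v) (hs : s ∈ F.flatten) (hsv : G.Adj s v) :
    Ri G (comp G F y) S' s := by
  by_contra hr
  refine hX v hv.mem hv.nS hv.nc ⟨s, hs, hsv, ?_⟩
  intro x' hx' hsx'
  by_contra hne
  exact hr ⟨v, hv.mem, x', hx', hsv, hsx',
    not_near_good (comp_con hy) hS hC hv hx' (fun he => hne he.symm)⟩

end Pool.Agent.H45L
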